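import Pool.Agent.helper22.GS.Spec

/-!
# Project gs: module DSA (semilinear maps with a scalar power of prime exponent)
-/

set_option autoImplicit false

namespace Pool.Agent.GS

open Module

theorem DSA_zero {F V : Type} [Field F] [AddCommGroup V] [Module F V]
    {B : LinearMap.BilinForm F V} {y : Equiv.Perm V} {ψ : F ≃+* F} {ν : F}
    (hy : Sim B y ψ ν) : y 0 = 0 := by
  have h := hy.smul 0 0
  rw [zero_smul, map_zero ψ, zero_smul] at h
  exact h

theorem DSA_ne {F V : Type} [Field F] [AddCommGroup V] [Module F V]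
    {B : LinearMap.BilinForm F V} {y : Equiv.Perm V} {ψ : F ≃+* F} {ν : F}
    (hy : Sim B y ψ ν) {v : V} (hv : v ≠ 0) : y v ≠ 0 := by
  intro h
  apply hv
  apply y.injective
  rw [h, DSA_zero hy]

theorem DSA_smul {F V : Type} [Field F] [AddCommGroup V] [Module F V]
    {B : LinearMap.BilinForm F V} {y : Equiv.Perm V} {ψ : F ≃+* F} {ν : F}
    (hy : Sim B y ψ ν) (j : ℕ) (c : F) (v : V) : (y ^ j) (c • v) = (⇑ψ)^[j] c • (y ^ j) v := by
  induction j with
  | zero => rfl
  | succ j ih =>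
    rw [pow_succ', Equiv.Perm.mul_apply, Equiv.Perm.mul_apply, ih, hy.smul,
      Function.iterate_succ_apply']

/-- multiples of semisimilarities. -/
theorem DSA_mul {F V : Type} [Field F] [AddCommGroup V] [Module F V]
    {B : LinearMap.BilinForm F V} {y : Equiv.Perm V} {ψ : F ≃+* F} {ν : F}
    (hy : Sim B y ψ ν) (c : Fˣ) : Sim B (sc V c * y) ψ ((c : F) ^ 2 * ν) := by
  refine ⟨mul_ne_zero (pow_ne_zero _ c.ne_zero) hy.ne, fun u v => ?_, fun d v => ?_, fun u v => ?_⟩
  · rw [Equiv.Perm.mul_apply, Equiv.Perm.mul_apply, Equiv.Perm.mul_apply, hy.add, sc_apply,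
      sc_apply, sc_apply, smul_add]
  · rw [Equiv.Perm.mul_apply, Equiv.Perm.mul_apply, hy.smul, sc_apply, sc_apply, smul_comm]
  · rw [Equiv.Perm.mul_apply, Equiv.Perm.mul_apply, sc_apply, sc_apply, map_smul, map_smul,
      LinearMap.smul_apply, hy.form, smul_eq_mul, smul_eq_mul]
    ring

theorem DSA_pow {F V : Type} [Field F] [AddCommGroup V] [Module F V]
    {B : LinearMap.BilinForm F V} {y : Equiv.Perm V} {ψ : F ≃+* F} {ν : F}
    (hy : Sim B y ψ ν) (c : Fˣ) (j : ℕ) (v : V) :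
    ((sc V c * y) ^ j) v = (∏ i ∈ Finset.range j, (⇑ψ)^[i] (c : F)) • (y ^ j) v := by
  induction j with
  | zero => simp
  | succ j ih =>
    rw [pow_succ', Equiv.Perm.mul_apply, ih, Equiv.Perm.mul_apply, hy.smul, sc_apply, map_prod,
      smul_smul, Finset.prod_range_succ', pow_succ' y, Equiv.Perm.mul_apply]
    congr 1
    rw [Function.iterate_zero, id, mul_comm]
    congr 1
    refine Finset.prod_congr rfl fun i _ => ?_
    rw [Function.iterate_succ_apply']

theorem DSA (h1 : DS1_stmt) (h3 : DS3_stmt) : DSA_stmt := by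
  intro F V _ _ _ _ _ B hB n hn hV y ψ ν hy hψ l κ hl hκ0 hκ
  have hfr : 0 < finrank F V := by omega
  have hnt : Nontrivial V := Module.nontrivial_of_finrank_pos hfr
  obtain ⟨v₀, hv₀⟩ := exists_ne (0 : V)
  have hψl : ∀ x, (⇑ψ)^[l] x = x := by
    intro x
    have h4 := DSA_smul hy l x v₀
    rw [hκ, hκ, smul_smul, smul_smul] at h4
    have h5 := smul_left_injective F hv₀ h4
    have h6 : κ * ((⇑ψ)^[l] x - x) = 0 := by
      rw [mul_sub, mul_comm κ ((⇑ψ)^[l] x)]
      exact sub_eq_zero.mpr h5.symm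
    rcases mul_eq_zero.mp h6 with h7 | h7
    · exact absurd h7 hκ0
    · exact sub_eq_zero.mp h7
  have hψκ : ψ κ = κ := by
    have h4 : (y ^ (l + 1)) v₀ = ψ κ • y v₀ := by
      rw [pow_succ', Equiv.Perm.mul_apply, hκ, hy.smul]
    have h5 : (y ^ (l + 1)) v₀ = κ • y v₀ := by
      rw [pow_succ, Equiv.Perm.mul_apply, hκ]
    rw [h4] at h5
    exact smul_left_injective F (DSA_ne hy hv₀) h5
  obtain ⟨lam, hlam, hprod⟩ := h1 ψ l hl hψ hψl κ hκ0 hψκ
  set c : Fˣ := Units.mk0 lam hlam with hc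
  have hcl : (c : F) = lam := rfl
  have hyl : ∀ v, ((sc V c * y) ^ l) v = v := by
    intro v
    rw [DSA_pow hy, hκ, smul_smul, hcl, mul_comm, hprod, one_smul]
  obtain ⟨μ, e, f, hμ, hef, hB'⟩ := h3 B hB n hn hV (sc V c * y) ψ _ (DSA_mul hy c) l hl hψ hψl hyl
  exact ⟨⟨lam, μ, e, f, hlam, hμ, hef, hB'⟩, hψl⟩

end Pool.Agent.GS
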