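import Pool.Agent.helper22.GS.Spec

/-!
# Project gs: module PO (powers of a semisimilarity)
-/

set_option autoImplicit false

namespace Pool.Agent.GS

open Module

theorem PO_one {F V : Type} [Field F] [AddCommGroup V] [Module F V]
    (B : LinearMap.BilinForm F V) : Sim B 1 (RingEquiv.refl F) 1 :=
  ⟨one_ne_zero, fun _ _ => rfl, fun _ _ => rfl, fun u v => by rw [one_mul]; rfl⟩

theorem PO_mul {F V : Type} [Field F] [AddCommGroup V] [Module F V]
    {B : LinearMap.BilinForm F V} {y z : Equiv.Perm V} {ψ φ : F ≃+* F} {ν μ : F}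
    (hy : Sim B y ψ ν) (hz : Sim B z φ μ) : Sim B (y * z) (φ.trans ψ) (ν * ψ μ) := by
  refine ⟨mul_ne_zero hy.ne ?_, fun u v => ?_, fun c v => ?_, fun u v => ?_⟩
  · intro h
    exact hz.ne ((map_eq_zero ψ).mp h)
  · rw [Equiv.Perm.mul_apply, Equiv.Perm.mul_apply, Equiv.Perm.mul_apply, hz.add, hy.add]
  · rw [Equiv.Perm.mul_apply, Equiv.Perm.mul_apply, hz.smul, hy.smul]
    rfl
  · rw [Equiv.Perm.mul_apply, Equiv.Perm.mul_apply, hy.form, hz.form, map_mul, mul_assoc]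
    rfl

theorem PO_pow {F V : Type} [Field F] [AddCommGroup V] [Module F V]
    {B : LinearMap.BilinForm F V} {y : Equiv.Perm V} {ψ : F ≃+* F} {ν : F}
    (hy : Sim B y ψ ν) (j : ℕ) : ∃ (ψ' : F ≃+* F) (ν' : F), Sim B (y ^ j) ψ' ν' := by
  induction j with
  | zero => exact ⟨RingEquiv.refl F, 1, by rw [pow_zero]; exact PO_one B⟩
  | succ j ih =>
    obtain ⟨φ, μ, h⟩ := ih
    exact ⟨_, _, by rw [pow_succ]; exact PO_mul h hy⟩

theorem PO : PO_stmt := by
  intro F V _ _ _ _ _ B y ψ ν hy hns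
  have hfin : Finite V := Module.finite_of_finite F
  have hex : ∃ d : ℕ, 1 ≤ d ∧ ∃ κ : F, ∀ v, (y ^ d) v = κ • v := by
    refine ⟨orderOf y, orderOf_pos y, 1, fun v => ?_⟩
    rw [pow_orderOf_eq_one, one_smul]
    rfl
  classical
  set d := Nat.find hex with hd
  obtain ⟨hd1, κ, hκ⟩ := Nat.find_spec hex
  rw [← hd] at hd1 hκ
  have hd2 : d ≠ 1 := by
    intro h
    rw [h, pow_one] at hκ
    obtain ⟨v, hv⟩ := hns κ
    exact hv (hκ v)
  have hl : d.minFac.Prime := Nat.minFac_prime hd2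
  have hdvd : d.minFac ∣ d := Nat.minFac_dvd d
  have hjl : d / d.minFac * d.minFac = d := Nat.div_mul_cancel hdvd
  have hj1 : 1 ≤ d / d.minFac := by
    rw [Nat.one_le_iff_ne_zero]
    intro h
    rw [h, zero_mul] at hjl
    omega
  have hj2 : d / d.minFac < d := Nat.div_lt_self (by omega) hl.one_lt
  obtain ⟨ψ', ν', hS⟩ := PO_pow hy (d / d.minFac)
  refine ⟨d / d.minFac, d.minFac, κ, ψ', ν', hl, hS, ?_, ?_, ?_⟩
  · intro c
    by_contra hcon
    push Not at hcon
    exact Nat.find_min hex hj2 ⟨hj1, c, hcon⟩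
  · rintro rfl
    obtain ⟨v, hv⟩ := hns 0
    rw [zero_smul] at hv
    apply hv
    apply (y ^ d).injective
    rw [hκ, hκ, zero_smul, zero_smul]
  · intro v
    rw [← pow_mul, hjl]
    exact hκ v

end Pool.Agent.GS
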